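import Pool.Agent.H44T.CF.Two

/-!
# Smooth cubic hypersurfaces of dimension four: the least degree of a parametrization

Let `X ⊂ ℙ^(m+1)`, `m = 4`, be ANY smooth cubic hypersurface (not only a general one). There is no
dominant rational map from an affine or projective space of any dimension to `X` which is given by
polynomials of degree at most three: every parametrization of `X`, birational or only dominant, has
degree at least four. The degree four occurs: if `X` contains two disjoint planes, then `X` has a
birational parametrization by polynomials of degree at most four in four parameters.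

The proof is in the modules `Pool.Agent.H44T.CF` (hand-in `MP_6fa476_ag.NoCubicParametrization`).
-/

namespace Pool.Agent.Results.MP_2619d0_ag.FourfoldParametrizations

open MvPolynomial

/-- `F` is the equation of a smooth cubic hypersurface of dimension `m`: a cubic form in `m + 2`
variables whose partial derivatives have no common zero besides the origin -/
def SmoothCubic (m : ℕ) (F : MvPolynomial (Fin (m + 2)) ℂ) : Prop :=
  F.IsHomogeneous 3 ∧ ∀ z : Fin (m + 2) → ℂ, (∀ i, eval z (pderiv i F) = 0) → z = 0

/-- The polynomials `G i` in `N` parameters define a dominant rational map to the hypersurface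
`F = 0`: `F` vanishes at `G`, and every form vanishing at `G` is divisible by `F`. -/
def Dominant {m : ℕ} (F : MvPolynomial (Fin (m + 2)) ℂ) {N : ℕ}
    (G : Fin (m + 2) → MvPolynomial (Fin N) ℂ) : Prop :=
  aeval G F = 0 ∧
    ∀ (e : ℕ) (H : MvPolynomial (Fin (m + 2)) ℂ), H.IsHomogeneous e → aeval G H = 0 → F ∣ H

/-- The map given by `G` is birational onto its image: the ratios `G i / G j` generate the field of
rational functions in the parameters. -/
def Birational {m N : ℕ} (G : Fin (m + 2) → MvPolynomial (Fin N) ℂ) : Prop :=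
  IntermediateField.adjoin ℂ {z : FractionRing (MvPolynomial (Fin N) ℂ) |
    ∃ i j, z = algebraMap (MvPolynomial (Fin N) ℂ) (FractionRing (MvPolynomial (Fin N) ℂ)) (G i) /
      algebraMap (MvPolynomial (Fin N) ℂ) (FractionRing (MvPolynomial (Fin N) ℂ)) (G j)} = ⊤

/-- the fourfold `F = 0` contains the plane spanned by the points `p 0`, `p 1`, `p 2` of `ℙ⁵` -/
def ContainsPlane (F : MvPolynomial (Fin (4 + 2)) ℂ) (p : Fin 3 → Fin (4 + 2) → ℂ) : Prop :=
  ∀ c : Fin 3 → ℂ, eval (∑ i, c i • p i) F = 0

/-- the fourfold `F = 0` contains two disjoint planes -/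
def TwoDisjointPlanes (F : MvPolynomial (Fin (4 + 2)) ℂ) : Prop :=
  ∃ p q : Fin 3 → Fin (4 + 2) → ℂ, LinearIndependent ℂ (Sum.elim p q) ∧
    ContainsPlane F p ∧ ContainsPlane F q

/-- **Parametrizations of smooth cubic hypersurfaces of dimension four.** (1) No smooth cubic
hypersurface of dimension four is dominated by an affine or projective space of any dimension
through polynomials of degree at most three. (2) Every one with two disjoint planes has a birational
parametrization by polynomials of degree at most four in four parameters. -/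
theorem result :
    (∀ F : MvPolynomial (Fin (4 + 2)) ℂ, SmoothCubic 4 F →
      ∀ (N : ℕ) (G : Fin (4 + 2) → MvPolynomial (Fin N) ℂ), (∀ i, (G i).totalDegree ≤ 3) →
        ¬ Dominant F G) ∧
    (∀ F : MvPolynomial (Fin (4 + 2)) ℂ, SmoothCubic 4 F → TwoDisjointPlanes F →
      ∃ G : Fin (4 + 2) → MvPolynomial (Fin 4) ℂ, (∀ i, (G i).totalDegree ≤ 4) ∧ Dominant F G ∧
        Birational G) := by
  refine ⟨fun F hF N G hG h => Pool.Agent.H44T.CF.no_param F hF.1 hF.2 N G hG h, ?_⟩
  rintro F ⟨hF, hsm⟩ ⟨p, q, hli, hp, hq⟩
  obtain ⟨T, hT, rfl⟩ := Pool.Agent.Y201.C3.exists_tri F hF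
  have hS := Pool.Agent.H44T.CF.smoothT_of hT hsm
  have hv : ∀ v : Fin 3 → Fin 6 → ℂ, ContainsPlane (Pool.Agent.Y201.C3.frm T) v →
      ∀ c : Fin 3 → ℂ, Pool.Agent.Y201.C3.Bf T (Pool.Agent.H44T.CF.comb v c)
        (Pool.Agent.H44T.CF.comb v c) (Pool.Agent.H44T.CF.comb v c) = 0 := by
    intro v h c
    rw [← Pool.Agent.H44T.CF.eval_frm]
    have h1 : (∑ i, c i • v i) = Pool.Agent.H44T.CF.comb v c := by
      funext j
      rw [Finset.sum_apply]
      rfl
    rw [← h1]
    exact h c
  obtain ⟨G, h1, h2, h3⟩ := Pool.Agent.H44T.CF.two_planes hT hS hli (hv p hp) (hv q hq)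
  exact ⟨G, h1, h2, h3⟩

end Pool.Agent.Results.MP_2619d0_ag.FourfoldParametrizations
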